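import Mathlib

/-!
# PPC / Count: an abstract counting lemma
-/

set_option autoImplicit false

namespace Pool.Agent.PPC

open Finset

lemma harm (n : ℕ) (hn : 1 ≤ n) : ∀ N : ℕ, n ≤ N →
    ∑ a ∈ Finset.Ioc n N, ((a : ℝ))⁻¹ ≤ Real.log N - Real.log n := by
  intro N hN
  induction N, hN using Nat.le_induction with
  | base => simp
  | succ N hN ih =>
    rw [Finset.sum_Ioc_succ_top hN]
    have hN0 : (0 : ℝ) < N := by exact_mod_cast (by omega : 0 < N)
    have h1 : ((N + 1 : ℕ) : ℝ)⁻¹ ≤ Real.log ((N + 1 : ℕ) : ℝ) - Real.log N := by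
      push_cast
      rw [← Real.log_div (by positivity) (by positivity)]
      have h2 := Real.one_sub_inv_le_log_of_pos (x := ((N : ℝ) + 1) / N) (by positivity)
      refine le_trans (le_of_eq ?_) h2
      field_simp
      ring
    linarith

/-- The sum of `min 1 (T / a)`. -/
lemma sum_min (T A : ℝ) (hT : 1 ≤ T) (hA : 1 ≤ A) (B : Finset ℕ)
    (hB : ∀ a ∈ B, 1 ≤ a ∧ (a : ℝ) ≤ A * T) :
    ∑ a ∈ B, min 1 (T / (a : ℝ)) ≤ T * (1 + Real.log (2 * A)) := by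
  have hT0 : 0 < T := by linarith
  have hA0 : 0 < A := by linarith
  set n := ⌊T⌋₊ with hn
  set N := ⌊A * T⌋₊ with hN
  have hn1 : 1 ≤ n := Nat.le_floor (by simpa using hT)
  have hnN : n ≤ N := Nat.floor_le_floor (by nlinarith)
  have hsub : B ⊆ Finset.Ioc 0 n ∪ Finset.Ioc n N := by
    intro a ha
    obtain ⟨h1, h2⟩ := hB a ha
    have h3 : a ≤ N := Nat.le_floor h2
    rw [Finset.mem_union, Finset.mem_Ioc, Finset.mem_Ioc]
    omega
  have hnonneg : ∀ a : ℕ, 0 ≤ min 1 (T / (a : ℝ)) := fun a => le_min zero_le_one (by positivity)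
  have hd : Disjoint (Finset.Ioc 0 n) (Finset.Ioc n N) := by
    rw [Finset.disjoint_left]
    intro a h1 h2
    rw [Finset.mem_Ioc] at h1 h2
    omega
  have h1 : ∑ a ∈ Finset.Ioc 0 n, min 1 (T / (a : ℝ)) ≤ T := by
    calc ∑ a ∈ Finset.Ioc 0 n, min 1 (T / (a : ℝ)) ≤ ∑ a ∈ Finset.Ioc 0 n, (1 : ℝ) :=
          Finset.sum_le_sum fun a _ => min_le_left _ _
      _ = n := by simp
      _ ≤ T := Nat.floor_le hT0.le
  have h2 : ∑ a ∈ Finset.Ioc n N, min 1 (T / (a : ℝ)) ≤ T * Real.log (2 * A) := by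
    calc ∑ a ∈ Finset.Ioc n N, min 1 (T / (a : ℝ)) ≤ ∑ a ∈ Finset.Ioc n N, T * ((a : ℝ))⁻¹ :=
          Finset.sum_le_sum fun a _ => (min_le_right _ _).trans (le_of_eq (div_eq_mul_inv _ _))
      _ = T * ∑ a ∈ Finset.Ioc n N, ((a : ℝ))⁻¹ := by rw [Finset.mul_sum]
      _ ≤ T * (Real.log N - Real.log n) := mul_le_mul_of_nonneg_left (harm n hn1 N hnN) hT0.le
      _ ≤ T * Real.log (2 * A) := by
        refine mul_le_mul_of_nonneg_left ?_ hT0.le
        have hn0 : (0 : ℝ) < n := by exact_mod_cast hn1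
        have hN0 : (0 : ℝ) < N := by exact_mod_cast (lt_of_lt_of_le (by omega : 0 < n) hnN)
        rw [← Real.log_div hN0.ne' hn0.ne']
        refine Real.log_le_log (div_pos hN0 hn0) ?_
        rw [div_le_iff₀ hn0]
        have h3 : (N : ℝ) ≤ A * T := Nat.floor_le (by positivity)
        have h4 : T < n + 1 := Nat.lt_floor_add_one T
        have h5 : (1 : ℝ) ≤ n := by exact_mod_cast hn1
        have h6 : T ≤ 2 * n := by linarith
        nlinarith
  calc ∑ a ∈ B, min 1 (T / (a : ℝ)) ≤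
        ∑ a ∈ Finset.Ioc 0 n ∪ Finset.Ioc n N, min 1 (T / (a : ℝ)) :=
        Finset.sum_le_sum_of_subset_of_nonneg hsub fun a _ _ => hnonneg a
    _ = ∑ a ∈ Finset.Ioc 0 n, min 1 (T / (a : ℝ)) + ∑ a ∈ Finset.Ioc n N, min 1 (T / (a : ℝ)) :=
        Finset.sum_union hd
    _ ≤ T * (1 + Real.log (2 * A)) := by linarith

theorem count {ι : Type*} [DecidableEq ι] (M : Finset ι) (f : ι → ℕ) (𝒜 : ι → Finset ℕ)
    (x : ℝ) (hx : 1 ≤ x) (K : ℝ) (hK : 1 ≤ K) (hf1 : ∀ i ∈ M, 1 ≤ f i)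
    (hf : ∀ i ∈ M, (f i : ℝ) ≤ x)
    (h1 : ∀ i ∈ M, ∀ a ∈ 𝒜 i, f i ≤ a ^ 2) (h2 : ∀ i ∈ M, ((𝒜 i).card : ℝ) ≤ K)
    (h3 : ∀ i ∈ M, 1 / 4 ≤ ∑ a ∈ 𝒜 i, Real.sqrt (f i) / (a : ℝ))
    (h4 : ∀ i ∈ M, ∀ j ∈ M, i ≠ j → Disjoint (𝒜 i) (𝒜 j)) :
    (M.card : ℝ) ≤ 8 * Real.sqrt x * (1 + Real.log (16 * K)) := by
  have hT : 1 ≤ Real.sqrt x := Real.one_le_sqrt.2 hx
  set T := Real.sqrt x with hTdef
  set B : ι → Finset ℕ := fun i => (𝒜 i).filter fun a : ℕ => (a : ℝ) ≤ 8 * K * Real.sqrt (f i) with hB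
  have key : ∀ i ∈ M, 1 / 8 ≤ ∑ a ∈ B i, min 1 (T / (a : ℝ)) := by
    intro i hi
    have hs1 : 1 ≤ Real.sqrt (f i) := Real.one_le_sqrt.2 (by exact_mod_cast hf1 i hi)
    have hs0 : 0 < Real.sqrt (f i) := by linarith
    have hsT : Real.sqrt (f i) ≤ T := Real.sqrt_le_sqrt (hf i hi)
    have ha1 : ∀ a ∈ 𝒜 i, Real.sqrt (f i) ≤ a := by
      intro a ha
      rw [Real.sqrt_le_left (by positivity)]
      exact_mod_cast h1 i hi a ha
    have hsplit : ∑ a ∈ 𝒜 i, Real.sqrt (f i) / (a : ℝ) =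
        ∑ a ∈ B i, Real.sqrt (f i) / (a : ℝ) +
        ∑ a ∈ (𝒜 i).filter (fun a : ℕ => ¬ (a : ℝ) ≤ 8 * K * Real.sqrt (f i)),
          Real.sqrt (f i) / (a : ℝ) := (Finset.sum_filter_add_sum_filter_not _ _ _).symm
    have hbig : ∑ a ∈ (𝒜 i).filter (fun a : ℕ => ¬ (a : ℝ) ≤ 8 * K * Real.sqrt (f i)),
          Real.sqrt (f i) / (a : ℝ) ≤ 1 / 8 := by
      calc ∑ a ∈ (𝒜 i).filter (fun a : ℕ => ¬ (a : ℝ) ≤ 8 * K * Real.sqrt (f i)),
            Real.sqrt (f i) / (a : ℝ) ≤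
            ∑ a ∈ (𝒜 i).filter (fun a : ℕ => ¬ (a : ℝ) ≤ 8 * K * Real.sqrt (f i)), 1 / (8 * K) := by
            refine Finset.sum_le_sum fun a ha => ?_
            rw [Finset.mem_filter, not_le] at ha
            have ha0 : (0 : ℝ) < a := lt_of_le_of_lt (by positivity) ha.2
            rw [div_le_div_iff₀ ha0 (by positivity)]
            nlinarith [ha.2]
        _ = ((𝒜 i).filter (fun a : ℕ => ¬ (a : ℝ) ≤ 8 * K * Real.sqrt (f i))).card * (1 / (8 * K)) := by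
            rw [Finset.sum_const, nsmul_eq_mul]
        _ ≤ K * (1 / (8 * K)) := by
            refine mul_le_mul_of_nonneg_right ?_ (by positivity)
            exact le_trans (by exact_mod_cast Finset.card_filter_le _ _) (h2 i hi)
        _ = 1 / 8 := by
            field_simp
    have hB1 : 1 / 8 ≤ ∑ a ∈ B i, Real.sqrt (f i) / (a : ℝ) := by
      have := h3 i hi
      linarith
    refine hB1.trans (Finset.sum_le_sum fun a ha => ?_)
    have ha' : a ∈ 𝒜 i := (Finset.mem_filter.1 ha).1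
    have h5 := ha1 a ha'
    have ha0 : (0 : ℝ) < a := by linarith
    refine le_min ?_ ?_
    · rw [div_le_one ha0]
      exact h5
    · exact div_le_div_of_nonneg_right hsT ha0.le
  have hdisj : ∀ i ∈ M, ∀ j ∈ M, i ≠ j → Disjoint (B i) (B j) := fun i hi j hj hij =>
    Finset.disjoint_of_subset_left (Finset.filter_subset _ _)
      (Finset.disjoint_of_subset_right (Finset.filter_subset _ _) (h4 i hi j hj hij))
  have hsum : ∑ i ∈ M, ∑ a ∈ B i, min 1 (T / (a : ℝ)) =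
      ∑ a ∈ M.biUnion B, min 1 (T / (a : ℝ)) := (Finset.sum_biUnion (fun i hi j hj hij =>
        hdisj i hi j hj hij)).symm
  have hb : ∑ a ∈ M.biUnion B, min 1 (T / (a : ℝ)) ≤ T * (1 + Real.log (2 * (8 * K))) := by
    refine sum_min T (8 * K) hT (by linarith) _ ?_
    intro a ha
    obtain ⟨i, hi, hai⟩ := Finset.mem_biUnion.1 ha
    obtain ⟨h5, h6⟩ := Finset.mem_filter.1 hai
    constructor
    · by_contra h7
      have h8 : a = 0 := by omega
      have h9 := h1 i hi a h5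
      have h10 := hf1 i hi
      rw [h8] at h9
      simp at h9
      omega
    · refine h6.trans ?_
      refine mul_le_mul_of_nonneg_left ?_ (by positivity)
      exact Real.sqrt_le_sqrt (hf i hi)
  have hM : (M.card : ℝ) * (1 / 8) ≤ ∑ i ∈ M, ∑ a ∈ B i, min 1 (T / (a : ℝ)) := by
    rw [← nsmul_eq_mul, ← Finset.sum_const]
    exact Finset.sum_le_sum key
  have e : 2 * (8 * K) = 16 * K := by ring
  rw [e] at hb
  rw [hsum] at hM
  nlinarith

end Pool.Agent.PPC
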