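import Pool.Agent.PPC.Split

/-!
# PPC / Fam: many divisors above the square root
-/

set_option autoImplicit false

namespace Pool.Agent.PPC

open Finset Pool.Agent.Helper99.PPN

/-- A family `w * p`, `p ∈ S`, of divisors of `∏ P`. -/
theorem fam {P : Finset ℕ} (hP : Sol P) (hm : 2 ≤ ∏ p ∈ P, p) :
    ∃ (W S : Finset ℕ), W ⊆ P ∧ S ⊆ P ∧ Disjoint W S ∧
      (∀ p ∈ S, ∏ p ∈ P, p ≤ ((∏ p ∈ W, p) * p) ^ 2) ∧
      1 / 4 ≤ ∑ p ∈ S, Real.sqrt ((∏ p ∈ P, p : ℕ) : ℝ) / (((∏ p ∈ W, p) * p : ℕ) : ℝ) := by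
  have hpos : ∀ p ∈ P, (0 : ℝ) < p := fun p hp => by exact_mod_cast (hP.1 p hp).pos
  set m : ℕ := ∏ p ∈ P, p with hmdef
  have hmR : (m : ℝ) = ∏ p ∈ P, (p : ℝ) := by rw [hmdef, Nat.cast_prod]
  have hm1 : (1 : ℝ) < m := by exact_mod_cast hm
  have hm0 : (0 : ℝ) < m := by linarith
  have hs1 : 1 ≤ Real.sqrt m := Real.one_le_sqrt.2 hm1.le
  have hs2 : Real.sqrt m < m := by
    have h1 := Real.mul_self_sqrt hm0.le
    have h2 : 1 < Real.sqrt m := by
      rw [Real.lt_sqrt zero_le_one]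
      simpa using hm1
    nlinarith
  obtain ⟨q, hq, U, hU, hUq, h1, h2⟩ := split P (fun p hp => (hP.1 p hp).two_le) (Real.sqrt m) hs1
    (by rw [← hmR]; exact hs2)
  have hss : Real.sqrt m * Real.sqrt m = m := Real.mul_self_sqrt hm0.le
  set L := P.filter (· < q) with hL
  set V := P.filter (fun p => q < p ∧ p ∉ U) with hV
  have hq0 : (0 : ℝ) < q := hpos q hq
  have hu0 : (0 : ℝ) < ∏ p ∈ U, (p : ℝ) := Finset.prod_pos fun p hp => hpos p (hU hp)
  have hv0 : (0 : ℝ) < ∏ p ∈ V, (p : ℝ) :=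
    Finset.prod_pos fun p hp => hpos p (Finset.filter_subset _ _ hp)
  have hl0 : (0 : ℝ) < ∏ p ∈ L, (p : ℝ) :=
    Finset.prod_pos fun p hp => hpos p (Finset.filter_subset _ _ hp)
  have hqU : q ∉ U := fun h => lt_irrefl _ (hUq q h)
  have hqV : q ∉ V := fun h => lt_irrefl _ (Finset.mem_filter.1 h).2.1
  have hUV : Disjoint U V := by
    rw [Finset.disjoint_left]
    intro p h3 h4
    exact (Finset.mem_filter.1 h4).2.2 h3
  have hH : P.filter (q ≤ ·) = insert q (U ∪ V) := by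
    ext p
    simp only [hV, Finset.mem_filter, Finset.mem_insert, Finset.mem_union]
    constructor
    · rintro ⟨h3, h4⟩
      rcases eq_or_lt_of_le h4 with h5 | h5
      · exact Or.inl h5.symm
      · by_cases h6 : p ∈ U
        · exact Or.inr (Or.inl h6)
        · exact Or.inr (Or.inr ⟨h3, h5, h6⟩)
    · rintro (h3 | h3 | h3)
      · subst h3
        exact ⟨hq, le_refl _⟩
      · exact ⟨hU h3, (hUq p h3).le⟩
      · exact ⟨h3.1, h3.2.1.le⟩
  have hqUV : q ∉ U ∪ V := by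
    rw [Finset.mem_union]
    tauto
  -- the product
  have hprod : (m : ℝ) = (∏ p ∈ L, (p : ℝ)) * (q * ((∏ p ∈ U, (p : ℝ)) * ∏ p ∈ V, (p : ℝ))) := by
    rw [hmR, ← Finset.prod_union hUV, ← Finset.prod_insert hqUV, ← hH, hL]
    have h3 := Finset.prod_filter_mul_prod_filter_not P (fun p => p < q) (fun p => (p : ℝ))
    rw [← h3]
    congr 1
    refine Finset.prod_congr ?_ fun _ _ => rfl
    ext p
    simp
  have htail := tail_sum hP q
  rw [hH, Finset.sum_insert hqUV, Finset.sum_union hUV, ← hL, ← hmR] at htail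
  set u := ∏ p ∈ U, (p : ℝ) with hu
  set v := ∏ p ∈ V, (p : ℝ) with hv
  set l := ∏ p ∈ L, (p : ℝ) with hl
  set s := Real.sqrt (m : ℝ) with hs
  have hs0 : 0 < s := by linarith
  have hvl : v * l < s := by
    have h3 : (v * l) * (u * q) = s * s := by rw [hss, hprod]; ring
    by_contra h4
    push Not at h4
    have : s * s < (v * l) * (u * q) := by
      calc s * s < s * (u * q) := by exact mul_lt_mul_of_pos_left h2 hs0
        _ ≤ (v * l) * (u * q) := mul_le_mul_of_nonneg_right h4 (by positivity)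
    linarith
  have hvq : s ≤ v * q := by
    have h3 : (v * q) * (u * l) = s * s := by rw [hss, hprod]; ring
    by_contra h4
    push Not at h4
    have : (v * q) * (u * l) < s * s := by
      calc (v * q) * (u * l) < s * (u * l) := mul_lt_mul_of_pos_right h4 (by positivity)
        _ ≤ s * s := mul_le_mul_of_nonneg_left h1 hs0.le
    linarith
  -- the sum is at least one half
  have hq2 : (2 : ℝ) ≤ q := by exact_mod_cast (hP.1 q hq).two_le
  have hlm : l / m ≤ 1 / 2 := by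
    rw [div_le_div_iff₀ hm0 two_pos, hprod]
    have hu1 : 1 ≤ u := by
      by_contra h4
      push Not at h4
      have hnat : (1 : ℝ) ≤ ((∏ p ∈ U, p : ℕ) : ℝ) := by
        exact_mod_cast Nat.one_le_iff_ne_zero.2
          (Finset.prod_ne_zero_iff.2 fun p hp => (hP.1 p (hU hp)).ne_zero)
      rw [Nat.cast_prod] at hnat
      linarith
    have hv1 : 1 ≤ v := by
      have hnat : (1 : ℝ) ≤ ((∏ p ∈ V, p : ℕ) : ℝ) := by
        exact_mod_cast Nat.one_le_iff_ne_zero.2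
          (Finset.prod_ne_zero_iff.2 fun p hp =>
            (hP.1 p (Finset.filter_subset _ _ hp)).ne_zero)
      rw [Nat.cast_prod] at hnat
      exact hnat
    have huv : 1 ≤ u * v := by nlinarith
    have : 2 ≤ q * (u * v) := by nlinarith
    nlinarith
  have hhalf : 1 / 2 ≤ l * ((q : ℝ)⁻¹ + (∑ p ∈ U, (p : ℝ)⁻¹ + ∑ p ∈ V, (p : ℝ)⁻¹)) := by
    have h3 := mul_le_mul_of_nonneg_left htail hl0.le
    rw [mul_sub, mul_inv_cancel₀ hl0.ne', ← div_eq_mul_inv] at h3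
    linarith
  have hsumU : ∑ p ∈ insert q U, (p : ℝ)⁻¹ = (q : ℝ)⁻¹ + ∑ p ∈ U, (p : ℝ)⁻¹ :=
    Finset.sum_insert hqU
  have hsumV : ∑ p ∈ insert q V, (p : ℝ)⁻¹ = (q : ℝ)⁻¹ + ∑ p ∈ V, (p : ℝ)⁻¹ :=
    Finset.sum_insert hqV
  have hqi : (0 : ℝ) < (q : ℝ)⁻¹ := inv_pos.2 hq0
  -- general step
  have step : ∀ W T : Finset ℕ, W ⊆ P → T ⊆ P → q ∉ W → Disjoint W T → (∀ p ∈ T, q < p) →
      (∏ p ∈ W, (p : ℝ)) * l ≤ s → s ≤ (∏ p ∈ W, (p : ℝ)) * q →
      1 / 4 ≤ l * ∑ p ∈ insert q T, (p : ℝ)⁻¹ →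
      ∃ (W S : Finset ℕ), W ⊆ P ∧ S ⊆ P ∧ Disjoint W S ∧
        (∀ p ∈ S, m ≤ ((∏ p ∈ W, p) * p) ^ 2) ∧
        1 / 4 ≤ ∑ p ∈ S, s / (((∏ p ∈ W, p) * p : ℕ) : ℝ) := by
    intro W T hW hT hqW hWT hTq h3 h4 h5
    have hw0 : (0 : ℝ) < ∏ p ∈ W, (p : ℝ) := Finset.prod_pos fun p hp => hpos p (hW hp)
    have hge : ∀ p ∈ insert q T, q ≤ p := by
      intro p hp
      rcases Finset.mem_insert.1 hp with rfl | hp
      · exact le_refl _
      · exact (hTq p hp).le
    refine ⟨W, insert q T, hW, ?_, ?_, ?_, ?_⟩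
    · intro p hp
      rcases Finset.mem_insert.1 hp with rfl | hp
      · exact hq
      · exact hT hp
    · rw [Finset.disjoint_insert_right]
      exact ⟨hqW, hWT⟩
    · intro p hp
      have h6 : (q : ℝ) ≤ p := by exact_mod_cast hge p hp
      have h7 : s ≤ (∏ p ∈ W, (p : ℝ)) * p :=
        h4.trans (mul_le_mul_of_nonneg_left h6 hw0.le)
      have h8 : (m : ℝ) ≤ ((((∏ p ∈ W, p) * p) ^ 2 : ℕ) : ℝ) := by
        rw [← hss]
        push_cast
        rw [sq]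
        exact mul_le_mul h7 h7 hs0.le (hs0.le.trans h7)
      exact_mod_cast h8
    · refine h5.trans ?_
      rw [Finset.mul_sum]
      refine Finset.sum_le_sum fun p hp => ?_
      have hp0 : (0 : ℝ) < p := lt_of_lt_of_le hq0 (by exact_mod_cast hge p hp)
      push_cast
      rw [← div_eq_mul_inv, div_le_div_iff₀ hp0 (mul_pos hw0 hp0)]
      calc l * ((∏ p ∈ W, (p : ℝ)) * p) = ((∏ p ∈ W, (p : ℝ)) * l) * p := by ring
        _ ≤ s * p := mul_le_mul_of_nonneg_right h3 hp0.le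
  by_cases hc : 1 / 4 ≤ l * ∑ p ∈ insert q V, (p : ℝ)⁻¹
  · exact step U V hU (Finset.filter_subset _ _) hqU hUV
      (fun p hp => (Finset.mem_filter.1 hp).2.1) h1 h2.le hc
  · refine step V U (Finset.filter_subset _ _) hU hqV hUV.symm hUq hvl.le hvq ?_
    push Not at hc
    rw [hsumV] at hc
    rw [hsumU]
    nlinarith
    
end Pool.Agent.PPC
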