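import Pool.Agent.PPC.Fam
import Pool.Agent.PPC.Count

/-!
# PPC / Main: the number of primary pseudoperfect numbers up to `x`
-/

set_option autoImplicit false

namespace Pool.Agent.PPC

open Finset Pool.Agent.Helper99.PPN

lemma strict {P A : Finset ℕ} (hP : Sol P) (hm : 2 ≤ ∏ p ∈ P, p) (hA : A ⊆ P)
    (h : ∏ p ∈ P, p ≤ (∏ p ∈ A, p) ^ 2) : ∏ p ∈ P, p < (∏ p ∈ A, p) ^ 2 := by
  refine lt_of_le_of_ne h fun he => ?_
  have h1 : (∏ p ∈ P \ A, p) * (∏ p ∈ A, p) = ∏ p ∈ P, p := Finset.prod_sdiff hA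
  have h2 : 0 < ∏ p ∈ A, p := Nat.pos_of_ne_zero
    (Finset.prod_ne_zero_iff.2 fun p hp => (hP.1 p (hA hp)).ne_zero)
  rw [he, sq] at h1
  have h3 : ∏ p ∈ P \ A, p = ∏ p ∈ A, p := Nat.eq_of_mul_eq_mul_right h2 h1
  have h4 : P \ A = A := prod_injOn (fun p hp => hP.1 p (Finset.mem_sdiff.1 hp).1)
    (fun p hp => hP.1 p (hA hp)) h3
  have h5 : A = ∅ := by
    rw [Finset.eq_empty_iff_forall_notMem]
    intro p hp
    have := hp
    rw [← h4] at this
    exact (Finset.mem_sdiff.1 this).2 hp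
  rw [h5, Finset.prod_empty] at he
  omega

lemma two_pow_card {P : Finset ℕ} (hP : ∀ p ∈ P, p.Prime) : 2 ^ P.card ≤ ∏ p ∈ P, p :=
  Finset.pow_card_le_prod P _ _ fun p hp => (hP p hp).two_le

theorem count_sol (x : ℝ) (hx : 3 ≤ x) (M : Finset (Finset ℕ)) (hM : ∀ P ∈ M, Sol P)
    (hM2 : ∀ P ∈ M, 2 ≤ ∏ p ∈ P, p) (hMx : ∀ P ∈ M, ((∏ p ∈ P, p : ℕ) : ℝ) ≤ x) :
    (M.card : ℝ) ≤ 8 * Real.sqrt x * (Real.log (Real.log x) + 5) := by
  classical
  have hf : ∀ P : Finset ℕ, ∃ WS : Finset ℕ × Finset ℕ, P ∈ M → WS.1 ⊆ P ∧ WS.2 ⊆ P ∧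
      Disjoint WS.1 WS.2 ∧ (∀ p ∈ WS.2, ∏ p ∈ P, p ≤ ((∏ p ∈ WS.1, p) * p) ^ 2) ∧
      1 / 4 ≤ ∑ p ∈ WS.2, Real.sqrt ((∏ p ∈ P, p : ℕ) : ℝ) /
        (((∏ p ∈ WS.1, p) * p : ℕ) : ℝ) := by
    intro P
    by_cases hP : P ∈ M
    · obtain ⟨W, S, h⟩ := fam (hM P hP) (hM2 P hP)
      exact ⟨(W, S), fun _ => h⟩
    · exact ⟨(∅, ∅), fun h => absurd h hP⟩
  choose WS hWS using hf
  have hlog2 : 0 < Real.log 2 := Real.log_pos (by norm_num)
  have hlog2' : (0.6931471803 : ℝ) < Real.log 2 := Real.log_two_gt_d9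
  have hlog2'' : Real.log 2 < 0.6931471808 := Real.log_two_lt_d9
  have hlx : Real.log 2 ≤ Real.log x := Real.log_le_log (by norm_num) (by linarith)
  have hlx0 : 0 < Real.log x := by linarith
  have hw0 : ∀ P ∈ M, 0 < ∏ p ∈ (WS P).1, p := fun P hP => Nat.pos_of_ne_zero
    (Finset.prod_ne_zero_iff.2 fun p hp => ((hM P hP).1 p ((hWS P hP).1 hp)).ne_zero)
  have hinj : ∀ P ∈ M, Set.InjOn (fun p : ℕ => (∏ p ∈ (WS P).1, p) * p) ((WS P).2 : Set ℕ) := by
    intro P hP a _ b _ hab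
    exact Nat.eq_of_mul_eq_mul_left (hw0 P hP) hab
  have hmain := count M (fun P => ∏ p ∈ P, p)
    (fun P => (WS P).2.image fun p => (∏ p ∈ (WS P).1, p) * p) x (by linarith)
    (Real.log x / Real.log 2) (by rwa [le_div_iff₀ hlog2, one_mul])
    (fun P hP => le_trans (by norm_num : 1 ≤ 2) (hM2 P hP)) hMx
    (by
      intro P hP a ha
      obtain ⟨p, hp, rfl⟩ := Finset.mem_image.1 ha
      exact (hWS P hP).2.2.2.1 p hp)
    (by
      intro P hP
      rw [le_div_iff₀ hlog2]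
      have h1 : ((WS P).2.image fun p => (∏ p ∈ (WS P).1, p) * p).card ≤ P.card :=
        Finset.card_image_le.trans (Finset.card_le_card (hWS P hP).2.1)
      have h2 : (2 : ℝ) ^ P.card ≤ x := by
        refine le_trans ?_ (hMx P hP)
        exact_mod_cast two_pow_card (hM P hP).1
      have h3 : (P.card : ℝ) * Real.log 2 ≤ Real.log x := by
        rw [← Real.log_pow]
        exact Real.log_le_log (by positivity) h2
      refine le_trans (mul_le_mul_of_nonneg_right ?_ hlog2.le) h3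
      exact_mod_cast h1)
    (by
      intro P hP
      rw [Finset.sum_image (hinj P hP)]
      exact (hWS P hP).2.2.2.2)
    (by
      intro P hP Q hQ hPQ
      rw [Finset.disjoint_left]
      intro a ha hb
      obtain ⟨p, hp, hpa⟩ := Finset.mem_image.1 ha
      obtain ⟨r, hr, hrb⟩ := Finset.mem_image.1 hb
      obtain ⟨p1, p2, p3, p4, -⟩ := hWS P hP
      obtain ⟨r1, r2, r3, r4, -⟩ := hWS Q hQ
      have hpW : p ∉ (WS P).1 := fun h => Finset.disjoint_left.1 p3 h hp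
      have hrW : r ∉ (WS Q).1 := fun h => Finset.disjoint_left.1 r3 h hr
      have hA : insert p (WS P).1 ⊆ P := by
        intro y hy
        rcases Finset.mem_insert.1 hy with rfl | hy
        · exact p2 hp
        · exact p1 hy
      have hB : insert r (WS Q).1 ⊆ Q := by
        intro y hy
        rcases Finset.mem_insert.1 hy with rfl | hy
        · exact r2 hr
        · exact r1 hy
      have eA : ∏ y ∈ insert p (WS P).1, y = a := by
        rw [Finset.prod_insert hpW, mul_comm]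
        exact hpa
      have eB : ∏ y ∈ insert r (WS Q).1, y = a := by
        rw [Finset.prod_insert hrW, mul_comm]
        exact hrb
      have s1 := strict (hM P hP) (hM2 P hP) hA (by rw [eA, ← hpa]; exact p4 p hp)
      have s2 := strict (hM Q hQ) (hM2 Q hQ) hB (by rw [eB, ← hrb]; exact r4 r hr)
      exact hPQ (uniq (hM P hP) (hM Q hQ) hA hB (eA.trans eB.symm) s1 s2))
  refine hmain.trans (mul_le_mul_of_nonneg_left ?_ (by positivity))
  have e1 : Real.log (16 * (Real.log x / Real.log 2)) =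
      4 * Real.log 2 + Real.log (Real.log x) - Real.log (Real.log 2) := by
    rw [Real.log_mul (by norm_num) (div_pos hlx0 hlog2).ne', Real.log_div hlx0.ne' hlog2.ne',
      show (16 : ℝ) = 2 ^ 4 by norm_num, Real.log_pow]
    push_cast
    ring
  have e2 : 1 - (Real.log 2)⁻¹ ≤ Real.log (Real.log 2) := Real.one_sub_inv_le_log_of_pos hlog2
  have e3 : (Real.log 2)⁻¹ ≤ 3 / 2 := by
    rw [inv_le_comm₀ hlog2 (by norm_num)]
    linarith
  rw [e1]
  linarith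

/-- The number of solutions of `∑ p ∈ P, 1 / p = 1 - 1 / m` with `m ≤ x`. -/
theorem count_pairs (x : ℝ) (hx : 3 ≤ x) :
    {s : ℕ × Finset ℕ | 2 ≤ s.1 ∧ s.2.Nonempty ∧ (∀ p ∈ s.2, p.Prime) ∧
      ∑ p ∈ s.2, (1 : ℚ) / p = 1 - 1 / (s.1 : ℚ) ∧ (s.1 : ℝ) ≤ x}.Finite ∧
    ({s : ℕ × Finset ℕ | 2 ≤ s.1 ∧ s.2.Nonempty ∧ (∀ p ∈ s.2, p.Prime) ∧
      ∑ p ∈ s.2, (1 : ℚ) / p = 1 - 1 / (s.1 : ℚ) ∧ (s.1 : ℝ) ≤ x}.ncard : ℝ) ≤
      8 * Real.sqrt x * (Real.log (Real.log x) + 5) := by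
  classical
  set A := {s : ℕ × Finset ℕ | 2 ≤ s.1 ∧ s.2.Nonempty ∧ (∀ p ∈ s.2, p.Prime) ∧
      ∑ p ∈ s.2, (1 : ℚ) / p = 1 - 1 / (s.1 : ℚ) ∧ (s.1 : ℝ) ≤ x} with hA
  have hprop : ∀ s ∈ A, s.1 = ∏ p ∈ s.2, p ∧ Sol s.2 := by
    rintro s ⟨h1, -, h3, h4, -⟩
    obtain ⟨e1, e2⟩ := eqn h1 h3 h4
    exact ⟨e1, h3, e2⟩
  have hinj : Set.InjOn Prod.snd A := by
    intro s hs t ht hst
    refine Prod.ext ?_ hst
    rw [(hprop s hs).1, (hprop t ht).1, hst]
  have hsub : Prod.snd '' A ⊆ ((Finset.range (⌊x⌋₊ + 1)).powerset : Set (Finset ℕ)) := by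
    rintro _ ⟨s, hs, rfl⟩
    rw [Finset.mem_coe, Finset.mem_powerset]
    intro p hp
    have h1 : p ∣ ∏ p ∈ s.2, p := Finset.dvd_prod_of_mem _ hp
    have h2 : p ≤ s.1 := by
      rw [← (hprop s hs).1] at h1
      exact Nat.le_of_dvd (by have := hs.1; omega) h1
    have h3 : s.1 ≤ ⌊x⌋₊ := Nat.le_floor hs.2.2.2.2
    rw [Finset.mem_range]
    omega
  have hfin' : (Prod.snd '' A).Finite := (Finset.finite_toSet _).subset hsub
  have hfin : A.Finite := hfin'.of_finite_image hinj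
  refine ⟨hfin, ?_⟩
  have hcard : A.ncard = hfin'.toFinset.card := by
    rw [← Set.ncard_eq_toFinset_card _ hfin', hinj.ncard_image]
  rw [hcard]
  refine count_sol x hx _ ?_ ?_ ?_
  · intro P hP
    obtain ⟨s, hs, rfl⟩ := (Set.Finite.mem_toFinset hfin').1 hP
    exact (hprop s hs).2
  · intro P hP
    obtain ⟨s, hs, rfl⟩ := (Set.Finite.mem_toFinset hfin').1 hP
    rw [← (hprop s hs).1]
    exact hs.1
  · intro P hP
    obtain ⟨s, hs, rfl⟩ := (Set.Finite.mem_toFinset hfin').1 hP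
    rw [← (hprop s hs).1]
    exact hs.2.2.2.2

end Pool.Agent.PPC
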