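import Pool.Agent.PPC.Uniq

/-!
# PPC / Split: the greedy splitting of a product at a given size
-/

set_option autoImplicit false

namespace Pool.Agent.PPC

open Finset Pool.Agent.Helper99.PPN

/-- Greedy splitting of the elements below `t`. -/
lemma greedy (P : Finset ℕ) (hP : ∀ p ∈ P, 2 ≤ p) : ∀ (n : ℕ) (D : Finset ℕ), D.card = n → D ⊆ P →
    (∀ p ∈ P, ∀ d ∈ D, p < d → p ∈ D) → ∀ z : ℝ, 1 ≤ z → z < ∏ p ∈ D, (p : ℝ) →
    ∃ q ∈ D, ∃ U ⊆ D, (∀ p ∈ U, q < p) ∧
      (∏ p ∈ U, (p : ℝ)) * ∏ p ∈ P.filter (· < q), (p : ℝ) ≤ z ∧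
      z < (∏ p ∈ U, (p : ℝ)) * q := by
  intro n
  induction n with
  | zero =>
    intro D hD _ _ z hz hz'
    rw [Finset.card_eq_zero] at hD
    subst hD
    simp at hz'
    linarith
  | succ n ih =>
    intro D hD hDP hlow z hz hz'
    have hne : D.Nonempty := by
      rw [← Finset.card_pos]; omega
    set p := D.max' hne with hp
    have hpD : p ∈ D := Finset.max'_mem D hne
    have hp2 : 2 ≤ p := hP p (hDP hpD)
    have hp0 : (0 : ℝ) < p := by
      have : 0 < p := by omega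
      exact_mod_cast this
    set D' := D.erase p with hD'
    have hcard : D'.card = n := by
      rw [hD', Finset.card_erase_of_mem hpD, hD]; rfl
    have hD'P : D' ⊆ P := (Finset.erase_subset _ _).trans hDP
    have hlow' : ∀ x ∈ P, ∀ d ∈ D', x < d → x ∈ D' := by
      intro x hx d hd hxd
      have hdD : d ∈ D := Finset.mem_of_mem_erase hd
      have hdp : d ≤ p := Finset.le_max' D d hdD
      exact Finset.mem_erase.2 ⟨by omega, hlow x hx d hdD hxd⟩
    have hfil : P.filter (· < p) = D' := by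
      ext x
      rw [Finset.mem_filter, Finset.mem_erase]
      constructor
      · rintro ⟨hx, hxp⟩
        exact ⟨by omega, hlow x hx p hpD hxp⟩
      · rintro ⟨hxp, hx⟩
        have : x ≤ p := Finset.le_max' D x hx
        exact ⟨hDP hx, by omega⟩
    have hprod : ∏ x ∈ D, (x : ℝ) = p * ∏ x ∈ D', (x : ℝ) :=
      (Finset.mul_prod_erase D (fun x => (x : ℝ)) hpD).symm
    by_cases hzp : z < p
    · by_cases hzD : z < ∏ x ∈ D', (x : ℝ)
      · obtain ⟨q, hq, U, hU, h1, h2, h3⟩ := ih D' hcard hD'P hlow' z hz hzD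
        exact ⟨q, Finset.mem_of_mem_erase hq, U, hU.trans (Finset.erase_subset _ _), h1, h2, h3⟩
      · push Not at hzD
        refine ⟨p, hpD, ∅, Finset.empty_subset _, by simp, ?_, ?_⟩
        · rw [hfil]
          simpa using hzD
        · simpa using hzp
    · push Not at hzp
      have hz1 : 1 ≤ z / p := by rwa [le_div_iff₀ hp0, one_mul]
      have hz2 : z / p < ∏ x ∈ D', (x : ℝ) := by
        rw [div_lt_iff₀ hp0, mul_comm, ← hprod]
        exact hz'
      obtain ⟨q, hq, U, hU, h1, h2, h3⟩ := ih D' hcard hD'P hlow' (z / p) hz1 hz2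
      have hpU : p ∉ U := fun h => Finset.notMem_erase p D (hU h)
      have hqp : q < p := by
        have h4 : q ≤ p := Finset.le_max' D q (Finset.mem_of_mem_erase hq)
        have h5 : q ≠ p := (Finset.mem_erase.1 hq).1
        omega
      refine ⟨q, Finset.mem_of_mem_erase hq, insert p U, ?_, ?_, ?_, ?_⟩
      · intro x hx
        rcases Finset.mem_insert.1 hx with rfl | hx
        · exact hpD
        · exact Finset.mem_of_mem_erase (hU hx)
      · intro x hx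
        rcases Finset.mem_insert.1 hx with rfl | hx
        · exact hqp
        · exact h1 x hx
      · rw [Finset.prod_insert hpU, mul_assoc, mul_comm]
        rwa [le_div_iff₀ hp0] at h2
      · rw [Finset.prod_insert hpU, mul_assoc, mul_comm]
        rwa [div_lt_iff₀ hp0] at h3

theorem split (P : Finset ℕ) (hP : ∀ p ∈ P, 2 ≤ p) (z : ℝ) (hz : 1 ≤ z)
    (hz' : z < ∏ p ∈ P, (p : ℝ)) :
    ∃ q ∈ P, ∃ U ⊆ P, (∀ p ∈ U, q < p) ∧
      (∏ p ∈ U, (p : ℝ)) * ∏ p ∈ P.filter (· < q), (p : ℝ) ≤ z ∧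
      z < (∏ p ∈ U, (p : ℝ)) * q :=
  greedy P hP P.card P rfl (Finset.Subset.refl _) (fun _ hp _ _ _ => hp) z hz hz'

/-- The sum over the elements from `q` on. -/
theorem tail_sum {P : Finset ℕ} (hP : Sol P) (q : ℕ) :
    (∏ p ∈ P.filter (· < q), (p : ℝ))⁻¹ - (∏ p ∈ P, (p : ℝ))⁻¹ ≤
      ∑ p ∈ P.filter (q ≤ ·), (p : ℝ)⁻¹ := by
  set L := P.filter (· < q) with hL
  set H := P.filter (q ≤ ·) with hH
  have hLP : L ⊆ P := Finset.filter_subset _ _
  have hPL : P \ L = H := by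
    ext x
    simp only [hL, hH, Finset.mem_sdiff, Finset.mem_filter, not_and, not_lt]
    constructor
    · rintro ⟨h1, h2⟩
      exact ⟨h1, h2 h1⟩
    · rintro ⟨h1, h2⟩
      exact ⟨h1, fun _ => h2⟩
  have hs := split_eq hP hLP
  rw [hPL] at hs
  have hpos : ∀ p ∈ P, (0 : ℝ) < p := fun p hp => by exact_mod_cast (hP.1 p hp).pos
  have hdd : ∀ A ⊆ P, ∑ p ∈ A, (p : ℝ)⁻¹ = (dd A : ℝ) / ∏ p ∈ A, (p : ℝ) := by
    intro A hA
    have h := sum_inv (P := A) fun p hp => hP.1 p (hA hp)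
    have h' := congrArg (fun x : ℚ => (x : ℝ)) h
    push_cast at h'
    rw [← h']
    refine Finset.sum_congr rfl fun p _ => ?_
    rw [one_div]
  have hprod : ∏ p ∈ P, (p : ℝ) = (∏ p ∈ L, (p : ℝ)) * ∏ p ∈ H, (p : ℝ) := by
    rw [← hPL, mul_comm]
    exact (Finset.prod_sdiff hLP).symm
  have hl : (0 : ℝ) < ∏ p ∈ L, (p : ℝ) := Finset.prod_pos fun p hp => hpos p (hLP hp)
  have hh : (0 : ℝ) < ∏ p ∈ H, (p : ℝ) :=
    Finset.prod_pos fun p hp => hpos p (Finset.filter_subset _ _ hp)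
  rw [hdd H (Finset.filter_subset _ _), hprod]
  have hs' : (dd L : ℝ) * (∏ p ∈ H, (p : ℝ)) + (∏ p ∈ L, (p : ℝ)) * dd H + 1 =
      (∏ p ∈ L, (p : ℝ)) * ∏ p ∈ H, (p : ℝ) := by
    have h1 := congrArg (fun x : ℕ => (x : ℝ)) hs
    simpa only [Nat.cast_add, Nat.cast_mul, Nat.cast_prod, Nat.cast_one] using h1
  have hddL : dd L + 1 ≤ ∏ p ∈ L, p := by
    by_contra hc
    push Not at hc
    have h1 : (∏ p ∈ L, p) * ∏ p ∈ H, p ≤ dd L * ∏ p ∈ H, p :=
      Nat.mul_le_mul_right _ (by omega)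
    omega
  have hddL' : (dd L : ℝ) + 1 ≤ ∏ p ∈ L, (p : ℝ) := by
    have h1 : ((dd L + 1 : ℕ) : ℝ) ≤ ((∏ p ∈ L, p : ℕ) : ℝ) := Nat.cast_le.2 hddL
    simpa only [Nat.cast_add, Nat.cast_prod, Nat.cast_one] using h1
  set l := ∏ p ∈ L, (p : ℝ)
  set h := ∏ p ∈ H, (p : ℝ)
  have e1 : l⁻¹ - (l * h)⁻¹ = (h - 1) / (l * h) := by
    field_simp
  rw [e1, div_le_div_iff₀ (mul_pos hl hh) hh]
  have h5 : h ≤ l * h - dd L * h := by nlinarith
  nlinarith

end Pool.Agent.PPC
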