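import Pool.Agent.Helper99.PPN.Final

/-!
# PPC / Uniq: a divisor above the square root determines a primary pseudoperfect number
-/

set_option autoImplicit false

namespace Pool.Agent.PPC

open Finset Pool.Agent.Helper99.PPN

lemma dd_union (A B : Finset ℕ) (h : Disjoint A B) :
    dd (A ∪ B) = dd A * ∏ p ∈ B, p + (∏ p ∈ A, p) * dd B := by
  induction A using Finset.induction_on with
  | empty => simp [dd_empty]
  | insert q A hq ih =>
    have hA : Disjoint A B := Finset.disjoint_of_subset_left (Finset.subset_insert q A) h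
    have hqB : q ∉ B := Finset.disjoint_left.1 h (Finset.mem_insert_self q A)
    have hqAB : q ∉ A ∪ B := by
      rw [Finset.mem_union]
      tauto
    rw [Finset.insert_union, dd_insert hqAB, dd_insert hq, ih hA, Finset.prod_insert hq,
      Finset.prod_union hA]
    ring

/-- The solutions: sets of primes. -/
def Sol (P : Finset ℕ) : Prop := (∀ p ∈ P, p.Prime) ∧ dd P + 1 = ∏ p ∈ P, p

lemma split_eq {P A : Finset ℕ} (hP : Sol P) (hA : A ⊆ P) :
    dd A * ∏ p ∈ P \ A, p + (∏ p ∈ A, p) * dd (P \ A) + 1 =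
      (∏ p ∈ A, p) * ∏ p ∈ P \ A, p := by
  have h1 : A ∪ P \ A = P := Finset.union_sdiff_of_subset hA
  have h2 : Disjoint A (P \ A) := Finset.disjoint_sdiff
  rw [← Finset.prod_union h2, ← dd_union A _ h2, h1]
  exact hP.2

lemma uniq_aux {P Q A : Finset ℕ} (hP : Sol P) (hQ : Sol Q) (hAP : A ⊆ P) (hAQ : A ⊆ Q)
    (h1 : ∏ p ∈ P, p < (∏ p ∈ A, p) ^ 2) (h2 : ∏ p ∈ Q, p < (∏ p ∈ A, p) ^ 2) :
    ∏ p ∈ P, p = ∏ p ∈ Q, p := by
  have e1 := split_eq hP hAP
  have e2 := split_eq hQ hAQ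
  have f1 : (∏ p ∈ A, p) * ∏ p ∈ P \ A, p = ∏ p ∈ P, p := by
    rw [mul_comm]; exact Finset.prod_sdiff hAP
  have f2 : (∏ p ∈ A, p) * ∏ p ∈ Q \ A, p = ∏ p ∈ Q, p := by
    rw [mul_comm]; exact Finset.prod_sdiff hAQ
  rw [← f1, ← f2]
  rw [← f1] at h1
  rw [← f2] at h2
  generalize (∏ p ∈ A, p) = a at *
  generalize (∏ p ∈ P \ A, p) = b at *
  generalize (∏ p ∈ Q \ A, p) = c at *
  generalize dd A = s at *
  generalize dd (P \ A) = t at *
  generalize dd (Q \ A) = u at *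
  have ha : 0 < a := by
    rcases Nat.eq_zero_or_pos a with h | h
    · subst h; simp at h1
    · exact h
  have hb : b < a := by
    by_contra hh
    push Not at hh
    have : a ^ 2 ≤ a * b := by rw [sq]; exact Nat.mul_le_mul_left a hh
    omega
  have hc : c < a := by
    by_contra hh
    push Not at hh
    have : a ^ 2 ≤ a * c := by rw [sq]; exact Nat.mul_le_mul_left a hh
    omega
  have e1' : (s : ℤ) * b + a * t + 1 = a * b := by exact_mod_cast e1
  have e2' : (s : ℤ) * c + a * u + 1 = a * c := by exact_mod_cast e2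
  have hd : (a : ℤ) ∣ (b : ℤ) - c := by
    refine ⟨(c - u) * b - (b - t) * c, ?_⟩
    -- a (b - t) = s b + 1, a (c - u) = s c + 1
    have g1 : (a : ℤ) * (b - t) = s * b + 1 := by rw [mul_sub]; linarith
    have g2 : (a : ℤ) * (c - u) = s * c + 1 := by rw [mul_sub]; linarith
    have : (a : ℤ) * ((c - u) * b - (b - t) * c) = (a * (c - u)) * b - (a * (b - t)) * c := by
      ring
    rw [this, g1, g2]
    ring
  have hbc : (b : ℤ) - c = 0 := by
    apply Int.eq_zero_of_abs_lt_dvd hd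
    rw [abs_lt]
    constructor <;> omega
  have : b = c := by omega
  rw [this]

lemma prod_injOn {A B : Finset ℕ} (hA : ∀ p ∈ A, p.Prime) (hB : ∀ p ∈ B, p.Prime)
    (h : ∏ p ∈ A, p = ∏ p ∈ B, p) : A = B := by
  rw [← Nat.primeFactors_prod hA, ← Nat.primeFactors_prod hB, h]

theorem uniq {P Q A B : Finset ℕ} (hP : Sol P) (hQ : Sol Q) (hAP : A ⊆ P) (hBQ : B ⊆ Q)
    (hAB : ∏ p ∈ A, p = ∏ p ∈ B, p)
    (h1 : ∏ p ∈ P, p < (∏ p ∈ A, p) ^ 2) (h2 : ∏ p ∈ Q, p < (∏ p ∈ B, p) ^ 2) : P = Q := by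
  have e : A = B := prod_injOn (fun p hp => hP.1 p (hAP hp)) (fun p hp => hQ.1 p (hBQ hp)) hAB
  subst e
  exact prod_injOn hP.1 hQ.1 (uniq_aux hP hQ hAP hBQ h1 h2)

end Pool.Agent.PPC
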